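import Pool.Agent.Lib.MP_eee7a8_ag.TB.Iface4
import Pool.Agent.Lib.MP_eee7a8_ag.TB.IfaceA

/-!
# TAGBR: module THM41
-/

set_option autoImplicit false

open Matrix

namespace Pool.Agent.Lib.MP_eee7a8_ag.TB.C48

open Pool.Agent.Lib.MP_eee7a8_ag.TB

section

variable {G : Subgroup SLZ} {K : Type} [Field K] [Algebra ℂ K] (L : Lam G K)

theorem lam_mem_RI (F : Cusp → Cusp → Prop) (a b : Cusp) : L.lam a b ∈ L.RI F := by
  apply Algebra.subset_adjoin
  left
  apply Algebra.subset_adjoin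
  left
  exact ⟨a, b, fun _ _ h => h.elim, rfl⟩

theorem inv_mem_RI {F : Cusp → Cusp → Prop} {a b : Cusp} (h : F a b) :
    (L.lam a b)⁻¹ ∈ L.RI F := by
  apply Algebra.subset_adjoin
  right
  exact ⟨a, b, h, rfl⟩

theorem zpow_mem_of {A : Subalgebra ℂ K} {x : K} (h1 : x ∈ A) (h2 : x⁻¹ ∈ A) (m : ℤ) :
    x ^ m ∈ A := by
  obtain ⟨n, rfl | rfl⟩ := m.eq_nat_or_neg
  · rw [zpow_natCast]; exact pow_mem h1 n
  · rw [_root_.zpow_neg, zpow_natCast, ← inv_pow]; exact pow_mem h2 n

theorem ev_mem_RI {ι : Type} [Fintype ι] (T : Fam ι) (F : Cusp → Cusp → Prop)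
    (h : ∀ i, F (T.s i) (T.t i)) (p : AddMonoidAlgebra ℂ (ι → ℤ)) : L.ev T p ∈ L.RI F := by
  unfold Lam.ev Finsupp.sum
  refine sum_mem fun m _ => mul_mem (Subalgebra.algebraMap_mem _ _) ?_
  unfold Lam.mon
  refine prod_mem fun i _ => ?_
  exact zpow_mem_of (lam_mem_RI L F _ _) (inv_mem_RI L (h i)) _

theorem addArc_congr (F : Cusp → Cusp → Prop) {p q p' q' : Cusp} (h : SameArc G p q p' q') :
    AddArc G F p q = AddArc G F p' q' := by
  funext a b
  apply propext
  unfold AddArc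
  constructor
  · rintro (h1 | h1)
    · exact Or.inl h1
    · exact Or.inr (h.symm.trans h1)
  · rintro (h1 | h1)
    · exact Or.inl h1
    · exact Or.inr (h.trans h1)

theorem subE_addArc {ι : Type} {T : Fam ι} {F : Cusp → Cusp → Prop} (h : SubE G T F)
    {p q : Cusp} (hpq : T.E G p q) : SubE G T (AddArc G F p q) where
  sub := by
    rintro a b (h1 | h1)
    · exact h.sub a b h1
    · exact hpq.same h1
  inv := by
    rintro a b c d h1 (h2 | h2)
    · exact Or.inl (h.inv a b c d h1 h2)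
    · exact Or.inr (h2.trans h1)

theorem flipStep_mono {ι : Type} {T T' : Fam ι} {F F' : Cusp → Cusp → Prop}
    (hF : ∀ a b, F a b → F' a b) (h : FlipStep G F' T T') : FlipStep G F T T' := by
  obtain ⟨i, a, f, h1, h2⟩ := h
  exact ⟨i, a, f, fun h3 => h1 (hF _ _ h3), h2⟩

theorem uf_addArc {ι : Type} [Fintype ι] {T : Fam ι} {F : Cusp → Cusp → Prop} {f : K}
    (h : L.UF T F f) (p q : Cusp) : L.UF T (AddArc G F p q) f := by
  intro T' hT'
  refine h T' ?_
  unfold FlipEqv at hT' ⊢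
  induction hT' with
  | refl => exact Relation.ReflTransGen.refl
  | tail _ h1 h2 => exact h2.tail (flipStep_mono (fun _ _ h3 => Or.inl h3) h1)

theorem uf_step {ι : Type} [Fintype ι] {T T' : Fam ι} {F : Cusp → Cusp → Prop} {f : K}
    (h : L.UF T F f) (hs : FlipStep G F T T') : L.UF T' F f := by
  intro T'' hT''
  exact h T'' (Relation.ReflTransGen.head hs hT'')

theorem subE_step {ι : Type} {T T' : Fam ι} {F : Cusp → Cusp → Prop} (h : SubE G T F)
    (hs : FlipStep G F T T') : SubE G T' F where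
  sub := by
    intro a b hab
    obtain ⟨j, hj⟩ := h.sub a b hab
    obtain ⟨i, x, y, h1, -, -, -, -, -, -, rfl⟩ := hs
    have hji : j ≠ i := by
      rintro rfl
      exact h1 (h.inv _ _ _ _ hj.symm hab)
    refine ⟨j, ?_⟩
    simpa [Fam.flip, hji] using hj
  inv := h.inv

end

open Classical in
/-- the number of edges not in `F` -/
noncomputable def cnt {ι : Type} [Fintype ι] (T : Fam ι) (F : Cusp → Cusp → Prop) : ℕ :=
  (Finset.univ.filter fun i => ¬ F (T.s i) (T.t i)).card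

theorem cnt_lt {ι : Type} [Fintype ι] {T T' : Fam ι} {F F' : Cusp → Cusp → Prop} {i : ι}
    (h1 : ¬ F (T.s i) (T.t i)) (h2 : F' (T'.s i) (T'.t i))
    (h3 : ∀ j, j ≠ i → F (T.s j) (T.t j) → F' (T'.s j) (T'.t j)) : cnt T' F' < cnt T F := by
  classical
  unfold cnt
  apply Finset.card_lt_card
  refine ⟨?_, ?_⟩
  · intro j hj
    simp only [Finset.mem_filter, Finset.mem_univ, true_and] at hj ⊢
    intro h4
    by_cases hji : j = i
    · rw [hji] at hj; exact hj h2
    · exact hj (h3 j hji h4)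
  · intro h4
    have h5 : i ∈ Finset.univ.filter fun j => ¬ F (T.s j) (T.t j) := by
      simp only [Finset.mem_filter, Finset.mem_univ, true_and]
      exact h1
    have h6 := h4 h5
    simp only [Finset.mem_filter, Finset.mem_univ, true_and] at h6
    exact h6 h2

theorem cnt_le {ι : Type} [Fintype ι] {T T' : Fam ι} {F F' : Cusp → Cusp → Prop}
    (h3 : ∀ j, F (T.s j) (T.t j) → F' (T'.s j) (T'.t j)) : cnt T' F' ≤ cnt T F := by
  classical
  unfold cnt
  apply Finset.card_le_card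
  intro j hj
  simp only [Finset.mem_filter, Finset.mem_univ, true_and] at hj ⊢
  exact fun h4 => hj (h3 j h4)

/-- the claim for all triangulations with at most `n` edges not in `F` -/
def Claim (G : Subgroup SLZ) {K : Type} [Field K] [Algebra ℂ K] (L : Lam G K) (ι : Type)
    [Fintype ι] (n : ℕ) : Prop :=
  ∀ T : Fam ι, T.IsTri G → ∀ F, SubE G T F → (∃ a b, F a b) → cnt T F ≤ n →
    ∀ (f : K) (δ : Cusp → ℤ), L.UF T F f → f ∈ L.Hom δ → (∀ z, NoEnd F z → 0 ≤ δ z) → f ∈ L.RI F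

section

variable {G : Subgroup SLZ} {K : Type} [Field K] [Algebra ℂ K] {L : Lam G K} {ι : Type}
  [Fintype ι]

theorem claim_addArc {n : ℕ} (ih : Claim G L ι n) {T : Fam ι} (hT : T.IsTri G)
    {F : Cusp → Cusp → Prop} (hF : SubE G T F) (hne : ∃ a b, F a b) (hn : cnt T F ≤ n + 1)
    {f : K} {δ : Cusp → ℤ} (hf : L.UF T F f) (hf2 : f ∈ L.Hom δ)
    (hδ : ∀ z, NoEnd F z → 0 ≤ δ z) {p q : Cusp} (hpq : T.E G p q) (hnF : ¬ F p q) :
    f ∈ L.RI (AddArc G F p q) := by
  obtain ⟨i, hi⟩ := hpq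
  have hpq' : T.E G p q := ⟨i, hi⟩
  have hlt : cnt T (AddArc G F p q) < cnt T F :=
    cnt_lt (i := i) (fun h => hnF (hF.inv _ _ _ _ hi h)) (Or.inr hi.symm) (fun _ _ h => Or.inl h)
  refine ih T hT _ (subE_addArc hF hpq') ?_ (by omega) f δ (uf_addArc L hf p q) hf2 ?_
  · obtain ⟨a, b, h⟩ := hne
    exact ⟨a, b, Or.inl h⟩
  · intro z hz
    refine hδ z fun b => ⟨fun h => (hz b).1 (Or.inl h), fun h => (hz b).2 (Or.inl h)⟩

/-- Case A: a triangle with exactly one side in `F`. -/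
theorem caseA (hG : IsSurface G) (hA : AbsStatement) (hA0 : CaseA0Statement)
    (hA1 : CaseA1Statement) (hA2 : CaseA2Statement) (hGeo : GeoA2Statement) {n : ℕ}
    (ih : Claim G L ι n) {T : Fam ι} (hT : T.IsTri G)
    {F : Cusp → Cusp → Prop} (hF : SubE G T F) (hne : ∃ a b, F a b) (hn : cnt T F ≤ n + 1)
    {f : K} {δ : Cusp → ℤ} (hf : L.UF T F f) (hf2 : f ∈ L.Hom δ)
    (hδ : ∀ z, NoEnd F z → 0 ≤ δ z) {w v z : Cusp} (hwv : F w v) (hzw : T.E G z w)
    (hzv : T.E G z v) (h1 : ¬ F z w) (h2 : ¬ F z v) : f ∈ L.RI F := by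
  have hN := hT.toNonCross
  have hFne : ∀ a b, F a b → a ≠ b := fun a b h => hN.ne' (hF.sub a b h)
  have e1 := claim_addArc ih hT hF hne hn hf hf2 hδ hzw h1
  have e2 := claim_addArc ih hT hF hne hn hf hf2 hδ hzv h2
  by_cases hz : NoEnd F z
  · by_cases hs : SameArc G z w z v
    · obtain ⟨g, hg, ⟨h3, h4⟩ | ⟨h3, h4⟩⟩ := hs
      · refine hA0 G K L hG F hF.inv hFne z w g hg h3 ?_ hz f δ e1 hf2 (hδ z hz)
        rw [h4]; exact hwv
      · exfalso
        have h5 := hF.inv _ _ _ _ (SameArc.smul hg w v) hwv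
        rw [h4] at h5
        exact (hz _).1 h5
    · obtain ⟨γ, T', hD, hF'⟩ := hGeo G hG ι T hT F hF w v z hwv hzw hzv hz hs
      have e3 := hA2 G K L hG ι T' z w v γ hD F hF' hwv hz f e1 e2
      exact hA G K L hG F hF.inv hFne z hz f δ e3 hf2 (hδ z hz)
  · have hz' : ∃ z', F z z' := by
      by_contra hno
      push Not at hno
      apply hz
      intro b
      exact ⟨hno b, fun h => hno b (hF.inv _ _ _ _ (SameArc.rev _ _) h)⟩
    obtain ⟨z', hz'⟩ := hz'
    exact hA1 G K L hG F hF.inv hFne w v z z' hwv hz' (hN.ne' hzw) (hN.ne' hzv) f e1 e2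

omit [Fintype ι] in
theorem symmF {T : Fam ι} {F : Cusp → Cusp → Prop} (hF : SubE G T F) {a b : Cusp} (h : F a b) :
    F b a := hF.inv _ _ _ _ (SameArc.rev _ _) h

omit [Fintype ι] in
/-- The flip of the third side of a triangle with two sides in `F`. -/
theorem flipData [Finite ι] (hG : IsSurface G) (hR : RadiusStatement) {T : Fam ι}
    (hT : T.IsTri G) {F : Cusp → Cusp → Prop} (hF : SubE G T F) {w v z y : Cusp} (hwv : F w v)
    (hvz : F v z) (hwz : T.E G w z) (hyw : T.E G y w) (hyz : T.E G y z) (hX : Cross v y w z)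
    (h1 : ¬ F w z) : Simple G v y ∧ ∃ (i : ι) (T' : Fam ι), FlipStep G F T T' ∧
      SameArc G (T.s i) (T.t i) w z ∧ (∀ j, j ≠ i → T'.s j = T.s j ∧ T'.t j = T.t j) ∧
      SameArc G (T'.s i) (T'.t i) v y := by
  have hsim : Simple G v y := by
    by_contra hns
    obtain ⟨g, hg, ⟨k1, k2, k3⟩ | ⟨k1, k2, k3⟩⟩ := hR G hG ι T hT v y w z hwz
      (hF.sub _ _ hwv).symm (hF.sub _ _ hvz) hyw hyz hX hns
    · apply h1
      have e1 : g⁻¹ • w = w := by rw [inv_smul_eq_iff]; exact k1.symm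
      have e2 : g⁻¹ • v = z := by rw [inv_smul_eq_iff]; exact k2.symm
      have k4 := hF.inv _ _ _ _ (SameArc.smul (G.inv_mem hg) w v) hwv
      rw [e1, e2] at k4
      exact k4
    · apply h1
      have e1 : g⁻¹ • z = z := by rw [inv_smul_eq_iff]; exact k1.symm
      have e2 : g⁻¹ • v = w := by rw [inv_smul_eq_iff]; exact k2.symm
      have k4 := hF.inv _ _ _ _ (SameArc.smul (G.inv_mem hg) v z) hvz
      rw [e1, e2] at k4
      exact k4
  refine ⟨hsim, ?_⟩
  obtain ⟨i, hi⟩ := hwz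
  have hvw : T.E G v w := (hF.sub _ _ hwv).symm
  have hvz' : T.E G v z := hF.sub _ _ hvz
  have hnF : ¬ F (T.s i) (T.t i) := fun h => h1 (hF.inv _ _ _ _ hi h)
  obtain ⟨g, hg, hgg⟩ := hi
  have hg' := G.inv_mem hg
  refine ⟨i, T.flip i (g⁻¹ • v) (g⁻¹ • y), ?_, ⟨g, hg, hgg⟩, ?_, ?_⟩
  · refine ⟨i, g⁻¹ • v, g⁻¹ • y, hnF, ?_⟩
    have hsim' : Simple G (g⁻¹ • v) (g⁻¹ • y) := hsim.of_same (SameArc.smul hg' v y)
    rcases hgg with ⟨k1, k2⟩ | ⟨k1, k2⟩
    · have e1 : T.s i = g⁻¹ • w := by rw [← k1, inv_smul_smul]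
      have e2 : T.t i = g⁻¹ • z := by rw [← k2, inv_smul_smul]
      rw [e1, e2]
      exact ⟨hvw.smul hg', hvz'.smul hg', hyw.smul hg', hyz.smul hg',
        (cross_smul _ _ _ _ _).2 hX, hsim', rfl⟩
    · have e1 : T.s i = g⁻¹ • z := by rw [← k1, inv_smul_smul]
      have e2 : T.t i = g⁻¹ • w := by rw [← k2, inv_smul_smul]
      rw [e1, e2]
      exact ⟨hvz'.smul hg', hvw.smul hg', hyz.smul hg', hyw.smul hg',
        (cross_smul _ _ _ _ _).2 (cross_comm_right.1 hX), hsim', rfl⟩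
  · intro j hj
    simp [Fam.flip, hj]
  · have e1 : (T.flip i (g⁻¹ • v) (g⁻¹ • y)).s i = g⁻¹ • v := by simp [Fam.flip]
    have e2 : (T.flip i (g⁻¹ • v) (g⁻¹ • y)).t i = g⁻¹ • y := by simp [Fam.flip]
    rw [e1, e2]
    exact (SameArc.smul hg' v y).symm

theorem claim_step (hG : IsSurface G) (hA : AbsStatement) (hA0 : CaseA0Statement)
    (hA1 : CaseA1Statement) (hA2 : CaseA2Statement) (hGeo : GeoA2Statement)
    (hB1 : CaseB1Statement) (hC : ConnStatement) (hR : RadiusStatement) (hFl : FlipStatement)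
    (hS : SidesStatement) {n : ℕ} (ih : Claim G L ι n) : Claim G L ι (n + 1) := by
  intro T hT F hF hne hn f δ hf hf2 hδ
  have hN := hT.toNonCross
  by_cases hall : ∀ a b, T.E G a b → F a b
  · obtain ⟨p, rfl⟩ := hf T Relation.ReflTransGen.refl
    exact ev_mem_RI L T F (fun i => hall _ _ (T.E_self i)) p
  have hex : ∃ w v z, F w v ∧ T.E G w z ∧ T.E G v z ∧ ¬ F w z := by
    by_contra hno
    push Not at hno
    exact hall (hC G hG ι T hT F hF hne hno)
  obtain ⟨w, v, z, hwv, hwz, hvz, h1⟩ := hex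
  by_cases h2 : F v z
  · -- Case B: `x₁ = w`, `x₂ = v`, `x₃ = z`
    have hy : ∃ y, T.E G y w ∧ T.E G y z ∧ Cross v y w z := by
      obtain ⟨a, a', h3, h4, h5, h6, h7⟩ := hT.tri w z hwz
      by_cases h8 : Cross v a w z
      · exact ⟨a, h3, h4, h8⟩
      · have h9 : v = a := hN.third hwz (hF.sub _ _ hwv).symm hvz h3 h4 h8
        exact ⟨a', h5, h6, by rw [h9]; exact h7⟩
    obtain ⟨y, hyw, hyz, hX⟩ := hy
    have hnvy : ¬ T.E G v y := fun h => hN.nocross _ _ _ _ h hwz hX
    have hfd := flipData hG hR hT hF hwv h2 hwz hyw hyz hX h1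
    obtain ⟨hsim, i, T', hstep, hi, hj, hi'⟩ := hfd
    have hT' : T'.IsTri G := hFl G hG ι T T' F hT hstep
    have hF' : SubE G T' F := subE_step hF hstep
    have hnFi : ¬ F (T.s i) (T.t i) := fun h => h1 (hF.inv _ _ _ _ hi h)
    have hf' : L.UF T' F f := uf_step L hf hstep
    by_cases h3 : F w y
    · by_cases h4 : F z y
      · -- B1
        have e1 := claim_addArc ih hT hF hne hn hf hf2 hδ hwz h1
        have hlt : cnt T' (AddArc G F v y) < cnt T F := by
          refine cnt_lt (i := i) hnFi (Or.inr hi'.symm) ?_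
          intro j hji h5
          rw [(hj j hji).1, (hj j hji).2]
          exact Or.inl h5
        have e2 : f ∈ L.RI (AddArc G F v y) := by
          refine ih T' hT' _ (subE_addArc hF' ⟨i, hi'⟩) ?_ (by omega) f δ
            (uf_addArc L hf' v y) hf2 ?_
          · exact ⟨w, v, Or.inl hwv⟩
          · intro z hz
            refine hδ z fun b => ⟨fun h => (hz b).1 (Or.inl h), fun h => (hz b).2 (Or.inl h)⟩
        exact hB1 G K L hG ι T hT F hF w v z y hwv h2 h3 h4 hwz h1 hX f e1 e2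
      · exact caseA hG hA hA0 hA1 hA2 hGeo ih hT hF hne hn hf hf2 hδ (w := w) (v := y) (z := z)
          h3 hwz.symm hyz.symm (fun h => h1 (symmF hF h)) h4
    · by_cases h4 : F z y
      · exact caseA hG hA hA0 hA1 hA2 hGeo ih hT hF hne hn hf hf2 hδ (w := z) (v := y) (z := w)
          h4 hwz hyw.symm h1 h3
      · -- B2
        have hle : cnt T' F ≤ cnt T F := by
          refine cnt_le fun j h5 => ?_
          have hji : j ≠ i := by
            rintro rfl
            exact hnFi h5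
          rw [(hj j hji).1, (hj j hji).2]
          exact h5
        have hyw' : T'.E G y w := by
          obtain ⟨j, hjj⟩ := hyw
          have hji : j ≠ i := by
            rintro rfl
            exact (hS G hG ι T hT y v w z hwz ⟨j, hjj⟩ hyz (hF.sub _ _ hwv).symm hvz
              (cross_comm_left.1 hX) ⟨Ne.symm hsim.1, fun g hg hc => hsim.2 g hg
                (cross_comm_left.1 (cross_comm_right.1 hc))⟩).1 (hi.symm.trans hjj)
          refine ⟨j, ?_⟩
          rw [(hj j hji).1, (hj j hji).2]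
          exact hjj
        have hyv' : T'.E G y v := Fam.E.symm ⟨i, hi'⟩
        exact caseA hG hA hA0 hA1 hA2 hGeo ih hT' hF' hne (by omega) hf' hf2 hδ (w := w) (v := v)
          (z := y) hwv hyw' hyv' (fun h => h3 (symmF hF h))
          (fun h => hnvy (hF.sub _ _ (symmF hF h)))
  · exact caseA hG hA hA0 hA1 hA2 hGeo ih hT hF hne hn hf hf2 hδ (w := w) (v := v) (z := z)
      hwv hwz.symm hvz.symm (fun h => h1 (symmF hF h)) (fun h => h2 (symmF hF h))

end

/-- THM41. -/
theorem thm41 (hA : AbsStatement) (hA0 : CaseA0Statement)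
    (hA1 : CaseA1Statement) (hA2 : CaseA2Statement) (hGeo : GeoA2Statement)
    (hB1 : CaseB1Statement) (hC : ConnStatement) (hR : RadiusStatement) (hFl : FlipStatement)
    (hS : SidesStatement) : Thm41Statement := by
  intro G K _ _ L hG ι _ T hT F hF hne f δ hf hf2 hδ
  have key : ∀ n, Claim G L ι n := by
    intro n
    induction n with
    | zero =>
      intro T hT F hF hne hn f δ hf hf2 hδ
      have hall : ∀ i, F (T.s i) (T.t i) := by
        classical
        intro i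
        by_contra hi
        unfold cnt at hn
        have h5 : i ∈ Finset.univ.filter fun j => ¬ F (T.s j) (T.t j) := by
          simp only [Finset.mem_filter, Finset.mem_univ, true_and]
          exact hi
        have h6 := Finset.card_pos.2 ⟨i, h5⟩
        omega
      obtain ⟨p, rfl⟩ := hf T Relation.ReflTransGen.refl
      exact ev_mem_RI L T F hall p
    | succ n ih => exact claim_step hG hA hA0 hA1 hA2 hGeo hB1 hC hR hFl hS ih
  exact key _ T hT F hF hne le_rfl f δ hf hf2 hδ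

end Pool.Agent.Lib.MP_eee7a8_ag.TB.C48
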